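import Pool.Agent.helper78.ED.Defs
import Pool.Agent.helper59.DM.KC
import Pool.Agent.helper26.ED.MO

/-! # ED project, module SE: the series on the right line -/

set_option autoImplicit false

open Complex MeasureTheory

namespace Pool.Agent.helper78.ED

open Pool.Agent.helper84.DM

theorem SE_am_zero (X : ℝ) : am X 0 = 0 := by
  unfold am
  simp

theorem SE_norm_cpow {n : ℕ} (hn : 1 ≤ n) (s : ℂ) : ‖(n : ℂ) ^ s‖ = (n : ℝ) ^ s.re := by
  have h : (0 : ℝ) < (n : ℝ) := by exact_mod_cast hn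
  have := Complex.norm_cpow_eq_rpow_re_of_pos h s
  simpa using this

theorem SE_norm_eq (X : ℝ) (n : ℕ) (ρ : ℂ) (A v : ℝ) :
    ‖am X n * (n : ℂ) ^ (-(ρ + ((A : ℂ) + v * I)))‖ = ‖am X n * (n : ℂ) ^ (-(ρ + (A : ℂ)))‖ := by
  rcases Nat.eq_zero_or_pos n with rfl | hn
  · rw [SE_am_zero, zero_mul, zero_mul]
  · rw [norm_mul, norm_mul, SE_norm_cpow hn, SE_norm_cpow hn]
    congr 2
    simp

theorem SE_phi_le {Y A V : ℝ} (hV : 0 ≤ V) {n : ℕ} (hn : 1 ≤ n) :
    ‖phi Y A V n‖ ≤ (n : ℝ) ^ (-A) * ∫ v in (-V)..V, ‖ker Y A v‖ := by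
  unfold phi
  refine (intervalIntegral.norm_integral_le_integral_norm (by linarith)).trans (le_of_eq ?_)
  rw [← intervalIntegral.integral_const_mul]
  refine intervalIntegral.integral_congr fun v _ => ?_
  rw [norm_mul, SE_norm_cpow hn]
  congr 2
  simp

theorem right_line_of
    (zm_series : ∀ (X : ℝ) (s : ℂ), 1 < s.re →
      Summable (fun n : ℕ => ‖am X n * (n : ℂ) ^ (-s)‖) ∧
      riemannZeta s * moll X s = ∑' n : ℕ, am X n * (n : ℂ) ^ (-s))
    {T A X : ℝ} (hT : 1 ≤ T) (hA : 2 ≤ A) (ρ : ℂ) (hρ : 0 ≤ ρ.re) :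
    Summable (fun n : ℕ => ‖am X n * (n : ℂ) ^ (-ρ) * phi (Real.sqrt T) A (T / 2) n‖) ∧
    ∫ v in (-(T / 2))..(T / 2), riemannZeta (ρ + ((A : ℂ) + v * I)) *
        moll X (ρ + ((A : ℂ) + v * I)) * ker (Real.sqrt T) A v
      = ∑' n : ℕ, am X n * (n : ℂ) ^ (-ρ) * phi (Real.sqrt T) A (T / 2) n := by
  have hY : 0 < Real.sqrt T := Real.sqrt_pos.2 (by linarith)
  have hA0 : A ≠ 0 := by linarith
  have hV : 0 ≤ T / 2 := by linarith
  set Y := Real.sqrt T with hYdef
  set V := T / 2 with hVdef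
  set K : ℝ := ∫ v in (-V)..V, ‖ker Y A v‖ with hK
  have hcont : Continuous (fun v => ker Y A v) := KC_cont hA0 hY
  have hsum : Summable (fun n : ℕ => ‖am X n * (n : ℂ) ^ (-(ρ + (A : ℂ)))‖) :=
    (zm_series X (ρ + (A : ℂ)) (by simp; linarith)).1
  constructor
  · refine Summable.of_nonneg_of_le (fun n => norm_nonneg _) (fun n => ?_) (hsum.mul_right K)
    rcases Nat.eq_zero_or_pos n with rfl | hn
    · rw [SE_am_zero]
      simp
    · rw [norm_mul, norm_mul, norm_mul, SE_norm_cpow hn, SE_norm_cpow hn]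
      have h1 := SE_phi_le (Y := Y) (A := A) hV hn
      have hn0 : (0 : ℝ) < (n : ℝ) := by exact_mod_cast hn
      have h2 : (n : ℝ) ^ (-(ρ + (A : ℂ))).re = (n : ℝ) ^ (-ρ).re * (n : ℝ) ^ (-A) := by
        rw [← Real.rpow_add hn0]
        congr 1
        simp
        ring
      rw [h2]
      calc ‖am X n‖ * (n : ℝ) ^ (-ρ).re * ‖phi Y A V n‖
          ≤ ‖am X n‖ * (n : ℝ) ^ (-ρ).re * ((n : ℝ) ^ (-A) * K) :=
            mul_le_mul_of_nonneg_left h1 (by positivity)
        _ = ‖am X n‖ * ((n : ℝ) ^ (-ρ).re * (n : ℝ) ^ (-A)) * K := by ring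
  · have hmain := intervalIntegral.hasSum_integral_of_dominated_convergence
      (μ := volume) (a := -V) (b := V)
      (F := fun (n : ℕ) (v : ℝ) => am X n * (n : ℂ) ^ (-(ρ + ((A : ℂ) + v * I))) * ker Y A v)
      (f := fun v : ℝ => riemannZeta (ρ + ((A : ℂ) + v * I)) *
        moll X (ρ + ((A : ℂ) + v * I)) * ker Y A v)
      (fun (n : ℕ) (v : ℝ) => ‖am X n * (n : ℂ) ^ (-(ρ + (A : ℂ)))‖ * ‖ker Y A v‖)
      (fun n => by
        refine Continuous.aestronglyMeasurable ?_
        refine Continuous.mul ?_ hcont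
        rcases Nat.eq_zero_or_pos n with rfl | hn
        · rw [SE_am_zero]
          simp only [zero_mul]
          exact continuous_const
        · refine continuous_const.mul ?_
          refine Continuous.const_cpow (by fun_prop) (Or.inl ?_)
          exact_mod_cast hn.ne')
      (fun n => Filter.Eventually.of_forall fun v _ => by
        rw [norm_mul, SE_norm_eq])
      (Filter.Eventually.of_forall fun v _ => hsum.mul_right _)
      (by
        have : (fun v : ℝ => ∑' n : ℕ, ‖am X n * (n : ℂ) ^ (-(ρ + (A : ℂ)))‖ * ‖ker Y A v‖)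
            = fun v : ℝ => (∑' n : ℕ, ‖am X n * (n : ℂ) ^ (-(ρ + (A : ℂ)))‖) * ‖ker Y A v‖ := by
          funext v
          rw [tsum_mul_right]
        rw [this]
        exact (continuous_const.mul hcont.norm).intervalIntegrable _ _)
      (Filter.Eventually.of_forall fun v _ => by
        have hre : 1 < (ρ + ((A : ℂ) + v * I)).re := by simp; linarith
        obtain ⟨h1, h2⟩ := zm_series X _ hre
        rw [h2]
        exact h1.of_norm.hasSum.mul_right _)
    rw [← hmain.tsum_eq]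
    refine tsum_congr fun n => ?_
    rcases Nat.eq_zero_or_pos n with rfl | hn
    · simp only [SE_am_zero, zero_mul]
      simp
    · unfold phi
      rw [← intervalIntegral.integral_const_mul]
      refine intervalIntegral.integral_congr fun v _ => ?_
      have hn0 : (n : ℂ) ≠ 0 := by exact_mod_cast hn.ne'
      rw [neg_add, Complex.cpow_add _ _ hn0]
      ring

theorem right_line {T A X : ℝ} (hT : 1 ≤ T) (hA : 2 ≤ A) (ρ : ℂ) (hρ : 0 ≤ ρ.re) :
    Summable (fun n : ℕ => ‖am X n * (n : ℂ) ^ (-ρ) * phi (Real.sqrt T) A (T / 2) n‖) ∧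
    ∫ v in (-(T / 2))..(T / 2), riemannZeta (ρ + ((A : ℂ) + v * I)) *
        moll X (ρ + ((A : ℂ) + v * I)) * ker (Real.sqrt T) A v
      = ∑' n : ℕ, am X n * (n : ℂ) ^ (-ρ) * phi (Real.sqrt T) A (T / 2) n :=
  right_line_of zm_series hT hA ρ hρ

end Pool.Agent.helper78.ED
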