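import Pool.Agent.helper78.ED.Defs
import Pool.Agent.helper44.DM.ZG
import Pool.Agent.helper91.DM.CT
import Pool.Agent.helper72.DM.ZZ

/-! # ED project, module SH: shift of the line of integration -/

set_option autoImplicit false

open Complex MeasureTheory

namespace Pool.Agent.helper78.ED

open Pool.Agent.helper84.DM

theorem SH_moll_le {X : ℝ} (hX : 1 ≤ X) {s : ℂ} (hs : 0 ≤ s.re) : ‖moll X s‖ ≤ X := by
  unfold moll
  have h1 : ∀ k ∈ Finset.Icc 1 ⌊X⌋₊,
      ‖((ArithmeticFunction.moebius k : ℤ) : ℂ) * (k : ℂ) ^ (-s)‖ ≤ 1 := by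
    intro k hk
    rw [Finset.mem_Icc] at hk
    have hk0 : (0 : ℝ) < (k : ℝ) := by exact_mod_cast hk.1
    have hk1 : (1 : ℝ) ≤ (k : ℝ) := by exact_mod_cast hk.1
    rw [norm_mul]
    have h2 : ‖((ArithmeticFunction.moebius k : ℤ) : ℂ)‖ ≤ 1 := by
      rw [Complex.norm_intCast]
      exact_mod_cast ArithmeticFunction.abs_moebius_le_one
    have h3 : ‖(k : ℂ) ^ (-s)‖ ≤ 1 := by
      have := Complex.norm_cpow_eq_rpow_re_of_pos hk0 (-s)
      rw [show ((k : ℝ) : ℂ) = (k : ℂ) by simp] at this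
      rw [this]
      exact Real.rpow_le_one_of_one_le_of_nonpos hk1 (by simpa using hs)
    calc _ ≤ (1 : ℝ) * 1 := mul_le_mul h2 h3 (norm_nonneg _) zero_le_one
      _ = 1 := one_mul 1
  refine (norm_sum_le_of_le _ h1).trans ?_
  rw [Finset.sum_const, Nat.card_Icc, nsmul_eq_mul, mul_one, Nat.add_sub_cancel]
  exact Nat.floor_le (by linarith)

theorem SH_moll_diff (X : ℝ) : Differentiable ℂ (moll X) := by
  unfold moll
  refine Differentiable.fun_sum fun k hk => ?_
  rw [Finset.mem_Icc] at hk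
  refine (differentiable_const _).mul ?_
  refine Differentiable.const_cpow differentiable_neg (Or.inl ?_)
  have : k ≠ 0 := by omega
  exact_mod_cast this

/-- the function which is integrated -/
noncomputable def SH_G (X Y : ℝ) (ρ w : ℂ) : ℂ :=
  riemannZeta (ρ + w) * moll X (ρ + w) * ((Y : ℂ) ^ w * Complex.exp (w ^ 2))

theorem SH_G_zero {X Y : ℝ} {ρ : ℂ} (h : riemannZeta ρ = 0) : SH_G X Y ρ 0 = 0 := by
  unfold SH_G
  rw [add_zero, h, zero_mul, zero_mul]

theorem SH_G_diff {X Y : ℝ} (hY : 0 < Y) {ρ w : ℂ} (h : ρ + w ≠ 1) :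
    DifferentiableAt ℂ (SH_G X Y ρ) w := by
  unfold SH_G
  have h1 : DifferentiableAt ℂ (fun w => riemannZeta (ρ + w)) w := by
    have := differentiableAt_riemannZeta h
    exact this.comp w (by fun_prop)
  have h2 : DifferentiableAt ℂ (fun w => moll X (ρ + w)) w :=
    ((SH_moll_diff X) (ρ + w)).comp w (by fun_prop)
  have h3 : DifferentiableAt ℂ (fun w : ℂ => (Y : ℂ) ^ w) w := by
    refine DifferentiableAt.const_cpow differentiableAt_id (Or.inl ?_)
    exact_mod_cast hY.ne'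
  exact (h1.mul h2).mul (h3.mul (by fun_prop))

theorem SH_norm_exp (x y : ℝ) :
    ‖Complex.exp (((x : ℂ) + y * I) ^ 2)‖ = Real.exp (x ^ 2 - y ^ 2) := by
  rw [Complex.norm_exp]
  congr 1
  rw [pow_two, Complex.mul_re]
  simp
  ring

theorem SH_norm_G {X Y : ℝ} (hX : 1 ≤ X) (hY : 0 < Y) {ρ : ℂ} {x y : ℝ} (h : 0 ≤ ρ.re + x) :
    ‖SH_G X Y ρ ((x : ℂ) + y * I)‖ ≤
      ‖riemannZeta (ρ + ((x : ℂ) + y * I))‖ * X * (Y ^ x * Real.exp (x ^ 2 - y ^ 2)) := by
  unfold SH_G
  rw [norm_mul, norm_mul, norm_mul, SH_norm_exp, Complex.norm_cpow_eq_rpow_re_of_pos hY]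
  have h1 : ((x : ℂ) + y * I).re = x := by simp
  rw [h1]
  have h2 : ‖moll X (ρ + ((x : ℂ) + y * I))‖ ≤ X := by
    refine SH_moll_le hX ?_
    simpa using h
  have h3 : 0 ≤ Y ^ x * Real.exp (x ^ 2 - y ^ 2) :=
    mul_nonneg (Real.rpow_nonneg hY.le _) (Real.exp_pos _).le
  exact mul_le_mul_of_nonneg_right (mul_le_mul_of_nonneg_left h2 (norm_nonneg _)) h3

theorem SH_dslope {X Y : ℝ} {ρ w : ℂ} (h : riemannZeta ρ = 0) (hw : w ≠ 0) :
    dslope (SH_G X Y ρ) 0 w = SH_G X Y ρ w / w := by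
  rw [dslope_of_ne _ hw, slope_def_field, sub_zero, SH_G_zero h, sub_zero]

theorem shift (η A : ℝ) (hη : 0 < η) (hη1 : η ≤ 1 / 8) (hA : 2 ≤ A) : ∃ C T₀ : ℝ, 0 < C ∧
    ∀ T : ℝ, T₀ ≤ T → ∀ X : ℝ, 1 ≤ X → X ≤ T → ∀ ρ : ℂ, riemannZeta ρ = 0 →
      1 / 2 + 2 * η ≤ ρ.re → T ≤ ρ.im → ρ.im ≤ 2 * T →
      ‖∫ v in (-(T / 2))..(T / 2), riemannZeta (ρ + ((A : ℂ) + v * I)) *
        moll X (ρ + ((A : ℂ) + v * I)) * ker (Real.sqrt T) A v‖
        ≤ 1 / 16 + C * X * Real.sqrt T ^ (1 / 2 + η - ρ.re) * Zt η (T / 2) ρ.im := by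
  obtain ⟨C0, hC0, hzp⟩ := zeta_poly
  -- the size condition
  set K : ℝ := 2 * (A + 1) * (27 * C0 * Real.exp (A ^ 2)) with hK
  have hK0 : 0 < K := by positivity
  obtain ⟨T₁, hT₁⟩ : ∃ T₁ : ℝ, ∀ T : ℝ, T₁ ≤ T →
      K * (T ^ (A + 4) * Real.exp (-(1 / 4) * T)) ≤ 1 / 16 := by
    have h1 := (tendsto_rpow_mul_exp_neg_mul_atTop_nhds_zero (A + 4) (1 / 4) (by norm_num)).const_mul K
    rw [mul_zero] at h1
    have h2 := h1.eventually (ge_mem_nhds (show (0 : ℝ) < 1 / 16 by norm_num))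
    exact Filter.eventually_atTop.1 h2
  refine ⟨Real.exp 1 / η, max T₁ 2, by positivity, ?_⟩
  intro T hT X hX hXT ρ hρ hre hT1 hT2
  have hTT : T₁ ≤ T := (le_max_left _ _).trans hT
  have hT2' : 2 ≤ T := (le_max_right _ _).trans hT
  have hT0 : 0 < T := by linarith
  set Y := Real.sqrt T with hY
  have hY0 : 0 < Y := Real.sqrt_pos.2 hT0
  have hY1 : 1 ≤ Y := by rw [hY, Real.one_le_sqrt]; linarith
  have hYT : Y ≤ T := by
    rw [hY, Real.sqrt_le_left hT0.le]
    nlinarith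
  set V := T / 2 with hV
  have hV0 : 0 < V := by positivity
  have hV1 : 1 ≤ V := by rw [hV]; linarith
  have him0 : ρ.im ≠ 0 := by linarith
  obtain ⟨hre0, hre1⟩ := zero_re hρ him0
  set a : ℝ := 1 / 2 + η - ρ.re with ha
  have ha0 : a ≤ -η := by rw [ha]; linarith
  have ha1 : -(1 / 2) ≤ a := by rw [ha]; linarith
  have haneg : a < 0 := by linarith
  have haA : a ≤ A := by linarith
  set G : ℂ → ℂ := SH_G X Y ρ with hG
  have hne : ∀ z : ℂ, |z.im| ≤ V → ρ + z ≠ 1 := by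
    intro z hz h
    have h1 := congrArg Complex.im h
    simp only [add_im, one_im] at h1
    rw [abs_le] at hz
    linarith [hz.1]
  have hGd : ∀ z : ℂ, a ≤ z.re → z.re ≤ A → |z.im| ≤ V → DifferentiableAt ℂ G z :=
    fun z _ _ h3 => SH_G_diff hY0 (hne z h3)
  have hdiff : ∀ z : ℂ, a ≤ z.re → z.re ≤ A → |z.im| ≤ V → DifferentiableAt ℂ (dslope G 0) z := by
    intro z h1 h2 h3
    rcases eq_or_ne z 0 with rfl | hz
    · have hopen : IsOpen (Set.Ioo a A ×ℂ Set.Ioo (-V) V) := isOpen_Ioo.reProdIm isOpen_Ioo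
      have hmem : (0 : ℂ) ∈ Set.Ioo a A ×ℂ Set.Ioo (-V) V := by
        rw [mem_reProdIm]
        refine ⟨⟨by simpa using haneg, ?_⟩, ⟨by simpa using hV0, by simpa using hV0⟩⟩
        simp only [Complex.zero_re]
        linarith
      have hn := hopen.mem_nhds hmem
      refine ((differentiableOn_dslope hn).2 fun w hw => ?_).differentiableAt hn
      rw [mem_reProdIm] at hw
      exact (hGd w hw.1.1.le hw.1.2.le (abs_le.2 ⟨hw.2.1.le, hw.2.2.le⟩)).differentiableWithinAt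
    · exact (differentiableAt_dslope_of_ne hz).2 (hGd z h1 h2 h3)
  -- the horizontal sides
  set M : ℝ := 27 * C0 * Real.exp (A ^ 2) * (T ^ (A + 4) * Real.exp (-(1 / 4) * T)) with hM
  have hside : ∀ x y : ℝ, a ≤ x → x ≤ A → |y| = V → ‖dslope G 0 ((x : ℂ) + y * I)‖ ≤ M := by
    intro x y h1 h2 h3
    have hnorm : V ≤ ‖(x : ℂ) + y * I‖ := by
      have := Complex.abs_im_le_norm ((x : ℂ) + y * I)
      simp only [add_im, ofReal_im, mul_im, ofReal_re, I_im, mul_one, I_re, mul_zero, add_zero,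
        zero_add] at this
      rw [h3] at this
      exact this
    have hw0 : (x : ℂ) + y * I ≠ 0 := norm_pos_iff.1 (hV0.trans_le hnorm)
    rw [SH_dslope hρ hw0, norm_div]
    have h4 : ‖G ((x : ℂ) + y * I)‖ / ‖(x : ℂ) + y * I‖ ≤ ‖G ((x : ℂ) + y * I)‖ :=
      div_le_self (norm_nonneg _) (hV1.trans hnorm)
    refine h4.trans ?_
    have hrex : 0 ≤ ρ.re + x := by linarith
    refine (SH_norm_G hX hY0 hrex).trans ?_
    have him : (ρ + ((x : ℂ) + y * I)).im = ρ.im + y := by simp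
    have hrx : (ρ + ((x : ℂ) + y * I)).re = ρ.re + x := by simp
    have hy := abs_le.1 h3.le
    have hz1 : 1 ≤ |(ρ + ((x : ℂ) + y * I)).im| := by
      rw [him]
      refine le_trans ?_ (le_abs_self _)
      linarith [hy.1]
    have hz2 : |(ρ + ((x : ℂ) + y * I)).im| ≤ 3 * T := by
      rw [him, abs_le]
      constructor <;> linarith [hy.1, hy.2]
    have hz3 : ‖riemannZeta (ρ + ((x : ℂ) + y * I))‖ ≤ C0 * (3 * T) ^ 3 := by
      refine (hzp _ (by rw [hrx]; linarith) hz1).trans ?_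
      exact mul_le_mul_of_nonneg_left (pow_le_pow_left₀ (abs_nonneg _) hz2 3) hC0.le
    have hp : Y ^ x ≤ T ^ A :=
      (Real.rpow_le_rpow_of_exponent_le hY1 h2).trans
        (Real.rpow_le_rpow hY0.le hYT (by linarith))
    have hx2 : x ^ 2 ≤ A ^ 2 := by nlinarith
    have hy2 : y ^ 2 = V ^ 2 := by rw [← sq_abs, h3]
    have he : Real.exp (x ^ 2 - y ^ 2) ≤ Real.exp (A ^ 2) * Real.exp (-(1 / 4) * T) := by
      rw [← Real.exp_add]
      apply Real.exp_le_exp.2
      rw [hy2, hV]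
      nlinarith
    have hTA : 0 ≤ T ^ A := Real.rpow_nonneg hT0.le _
    calc ‖riemannZeta (ρ + ((x : ℂ) + y * I))‖ * X * (Y ^ x * Real.exp (x ^ 2 - y ^ 2))
        ≤ (C0 * (3 * T) ^ 3) * T * (T ^ A * (Real.exp (A ^ 2) * Real.exp (-(1 / 4) * T))) := by
          have g1 : ‖riemannZeta (ρ + ((x : ℂ) + y * I))‖ * X ≤ (C0 * (3 * T) ^ 3) * T :=
            mul_le_mul hz3 hXT (by linarith) (by positivity)
          have g2 : Y ^ x * Real.exp (x ^ 2 - y ^ 2)
              ≤ T ^ A * (Real.exp (A ^ 2) * Real.exp (-(1 / 4) * T)) :=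
            mul_le_mul hp he (Real.exp_pos _).le hTA
          exact mul_le_mul g1 g2 (mul_nonneg (Real.rpow_nonneg hY0.le _) (Real.exp_pos _).le)
            (by positivity)
      _ = M := by
          rw [hM, Real.rpow_add hT0, show (4 : ℝ) = ((4 : ℕ) : ℝ) by norm_num, Real.rpow_natCast]
          ring
  have hshift := ct_shift (f := dslope G 0) (a := a) (b := A) (M := M) haA hV0 hdiff
    (fun x h1 h2 => by
      refine ⟨hside x V h1 h2 (abs_of_pos hV0), ?_⟩
      have := hside x (-V) h1 h2 (by rw [abs_neg, abs_of_pos hV0])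
      have e : (x : ℂ) + ((-V : ℝ) : ℂ) * I = (x : ℂ) - V * I := by
        push_cast; ring
      rw [e] at this
      exact this)
  have herr : 2 * (A - a) * M ≤ 1 / 16 := by
    have hM0 : 0 ≤ T ^ (A + 4) * Real.exp (-(1 / 4) * T) :=
      mul_nonneg (Real.rpow_nonneg hT0.le _) (Real.exp_pos _).le
    refine le_trans ?_ (hT₁ T hTT)
    rw [hM, hK]
    have : 2 * (A - a) ≤ 2 * (A + 1) := by linarith
    calc 2 * (A - a) * (27 * C0 * Real.exp (A ^ 2) * (T ^ (A + 4) * Real.exp (-(1 / 4) * T)))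
        ≤ 2 * (A + 1) * (27 * C0 * Real.exp (A ^ 2) * (T ^ (A + 4) * Real.exp (-(1 / 4) * T))) :=
          mul_le_mul_of_nonneg_right this (mul_nonneg (by positivity) hM0)
      _ = _ := by ring
  -- the integral on the right line
  have hIb : ∫ v in (-V)..V, riemannZeta (ρ + ((A : ℂ) + v * I)) *
        moll X (ρ + ((A : ℂ) + v * I)) * ker Y A v = ∫ v in (-V)..V, dslope G 0 (A + v * I) := by
    refine intervalIntegral.integral_congr fun v _ => ?_
    have hw0 : (A : ℂ) + v * I ≠ 0 := CT_ne (by linarith)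
    rw [SH_dslope hρ hw0]
    unfold SH_G ker
    ring
  -- the integral on the left line
  have hIa : ‖∫ v in (-V)..V, dslope G 0 (a + v * I)‖
      ≤ Real.exp 1 / η * X * Y ^ a * Zt η V ρ.im := by
    have hVV : -V ≤ V := by linarith
    have hzc : Continuous fun v : ℝ =>
        riemannZeta (((1 / 2 + η : ℝ) : ℂ) + (ρ.im + v : ℝ) * I) := by
      rw [continuous_iff_continuousAt]
      intro v
      have hne1 : (((1 / 2 + η : ℝ) : ℂ) + (ρ.im + v : ℝ) * I) ≠ 1 := by
        intro h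
        have h1 := congrArg Complex.re h
        simp at h1
        norm_num at h1
        linarith
      exact ContinuousAt.comp (f := fun v : ℝ => (((1 / 2 + η : ℝ) : ℂ) + (ρ.im + v : ℝ) * I))
        (differentiableAt_riemannZeta hne1).continuousAt (by fun_prop)
    have hg : Continuous fun v : ℝ => Real.exp 1 / η * X * Y ^ a *
        (‖riemannZeta (((1 / 2 + η : ℝ) : ℂ) + (ρ.im + v : ℝ) * I)‖ * Real.exp (-v ^ 2)) :=
      continuous_const.mul (hzc.norm.mul (by fun_prop))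
    have hb := intervalIntegral.norm_integral_le_of_norm_le hVV
      (f := fun v : ℝ => dslope G 0 (a + v * I))
      (g := fun v : ℝ => Real.exp 1 / η * X * Y ^ a *
        (‖riemannZeta (((1 / 2 + η : ℝ) : ℂ) + (ρ.im + v : ℝ) * I)‖ * Real.exp (-v ^ 2)))
      (μ := volume)
      (Filter.Eventually.of_forall fun v _ => by
        have hw0 : (a : ℂ) + v * I ≠ 0 := CT_ne haneg.ne
        rw [SH_dslope hρ hw0, norm_div]
        have h1 : η ≤ ‖(a : ℂ) + v * I‖ := by
          have := Complex.abs_re_le_norm ((a : ℂ) + v * I)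
          simp only [add_re, ofReal_re, mul_re, I_re, mul_zero, ofReal_im, I_im, mul_one,
            sub_self, add_zero] at this
          rw [abs_of_neg haneg] at this
          linarith
        have h2 := SH_norm_G (X := X) (Y := Y) (ρ := ρ) (x := a) (y := v) hX hY0
          (by rw [ha]; linarith)
        have e : ρ + ((a : ℂ) + v * I) = ((1 / 2 + η : ℝ) : ℂ) + (ρ.im + v : ℝ) * I := by
          apply Complex.ext
          · simp [ha]
          · simp
        rw [e] at h2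
        have h3 : Real.exp (a ^ 2 - v ^ 2) ≤ Real.exp 1 * Real.exp (-v ^ 2) := by
          rw [← Real.exp_add]
          apply Real.exp_le_exp.2
          nlinarith
        have hYa : 0 ≤ Y ^ a := Real.rpow_nonneg hY0.le _
        have h4 : ‖G ((a : ℂ) + v * I)‖ ≤ Real.exp 1 * X * Y ^ a *
            (‖riemannZeta (((1 / 2 + η : ℝ) : ℂ) + (ρ.im + v : ℝ) * I)‖ * Real.exp (-v ^ 2)) := by
          refine h2.trans ?_
          have h5 : Y ^ a * Real.exp (a ^ 2 - v ^ 2) ≤ Y ^ a * (Real.exp 1 * Real.exp (-v ^ 2)) :=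
            mul_le_mul_of_nonneg_left h3 hYa
          have h6 : 0 ≤ ‖riemannZeta (((1 / 2 + η : ℝ) : ℂ) + (ρ.im + v : ℝ) * I)‖ * X :=
            mul_nonneg (norm_nonneg _) (by linarith)
          refine (mul_le_mul_of_nonneg_left h5 h6).trans (le_of_eq ?_)
          ring
        have h7 : 0 ≤ Real.exp 1 * X * Y ^ a *
            (‖riemannZeta (((1 / 2 + η : ℝ) : ℂ) + (ρ.im + v : ℝ) * I)‖ * Real.exp (-v ^ 2)) :=
          (norm_nonneg _).trans h4
        calc ‖G ((a : ℂ) + v * I)‖ / ‖(a : ℂ) + v * I‖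
            ≤ (Real.exp 1 * X * Y ^ a *
            (‖riemannZeta (((1 / 2 + η : ℝ) : ℂ) + (ρ.im + v : ℝ) * I)‖ * Real.exp (-v ^ 2))) / η :=
              div_le_div₀ h7 h4 hη h1
          _ = _ := by ring)
      (hg.intervalIntegrable _ _)
    refine hb.trans (le_of_eq ?_)
    rw [intervalIntegral.integral_const_mul]
    rfl
  rw [hIb]
  have hfin : ‖∫ v in (-V)..V, dslope G 0 (A + v * I)‖
      ≤ ‖(∫ v in (-V)..V, dslope G 0 (A + v * I)) - ∫ v in (-V)..V, dslope G 0 (a + v * I)‖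
        + ‖∫ v in (-V)..V, dslope G 0 (a + v * I)‖ := by
    have := norm_add_le ((∫ v in (-V)..V, dslope G 0 (A + v * I))
      - ∫ v in (-V)..V, dslope G 0 (a + v * I)) (∫ v in (-V)..V, dslope G 0 (a + v * I))
    rwa [sub_add_cancel] at this
  linarith

end Pool.Agent.helper78.ED
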